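import Mathlib

/-!
# Frobenius nonclassical hypersurfaces whose Gauss map is not given by `p`-th powers

Let `q = p ^ h`, `w_ij = x_i x_j ^ q - x_j x_i ^ q`.  The derivation `∑ x_i ^ q ∂_i` kills every
`w_ij`, hence every polynomial in the `w_ij`, and every such polynomial defines a Frobenius
nonclassical hypersurface.  For `w_01 w_23 - w_12 ^ 2 = x_1 x_2 G` the polynomial `G` of degree
`2 q` is geometrically irreducible, the Gauss map of `G = 0` does not have `p`-th power
coordinates, and its restriction to the rational normal curve is separable.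
-/

namespace Pool.Agent.Results.MP_291982_ag.NotPthPowers

section Irr

open Polynomial

lemma irreducible_aux {R : Type*} [CommRing R] [IsDomain R] (π A B c : R) (N : ℕ) (hN : 2 ≤ N)
    (hπ : Prime π) (hA : π ∣ A) (hA2 : ¬ π ^ 2 ∣ A) (hB : ¬ π ∣ B)
    (hcop : ∀ r, r ∣ A → r ∣ B → IsUnit r) :
    Irreducible (C A * (X * C c - X ^ N) + C B : R[X]) := by
  have hA0 : A ≠ 0 := by
    rintro rfl
    exact hA2 (dvd_zero _)
  have hB0 : B ≠ 0 := by
    rintro rfl
    exact hB (dvd_zero _)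
  set g : R[X] := C A * (X * C c - X ^ N) + C B with hg
  have hcoeffN : g.coeff N = -A := by
    rw [hg]
    simp only [coeff_add, coeff_C_mul, coeff_sub, coeff_mul_C, coeff_X, coeff_X_pow, coeff_C]
    rw [if_neg (by omega), if_pos trivial, if_neg (by omega)]
    ring
  have hcoeff0 : g.coeff 0 = B := by
    rw [hg]
    simp only [coeff_add, coeff_C_mul, coeff_sub, coeff_mul_C, coeff_X, coeff_X_pow, coeff_C]
    rw [if_neg (by omega), if_neg (by omega), if_pos trivial]
    ring
  have hdeg : g.natDegree ≤ N := by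
    rw [hg]
    compute_degree
    omega
  have hdegN : g.natDegree = N := by
    refine le_antisymm hdeg (le_natDegree_of_ne_zero ?_)
    rw [hcoeffN]
    exact neg_ne_zero.2 hA0
  have hg0 : g ≠ 0 := by
    intro h
    rw [h, natDegree_zero] at hdegN
    omega
  have hP : (Ideal.span {π}).IsPrime := (Ideal.span_singleton_prime hπ.ne_zero).2 hπ
  have hmap : g.map (Ideal.Quotient.mk (Ideal.span {π})) =
      C (Ideal.Quotient.mk (Ideal.span {π}) B) := by
    rw [hg, Polynomial.map_add, Polynomial.map_mul, map_C, map_C]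
    rw [(Ideal.Quotient.eq_zero_iff_mem).2 (Ideal.mem_span_singleton.2 hA)]
    simp
  have hBne : (Ideal.Quotient.mk (Ideal.span {π})) B ≠ 0 := by
    rw [Ne, Ideal.Quotient.eq_zero_iff_mem, Ideal.mem_span_singleton]
    exact hB
  have key : ∀ a b : R[X], g = a * b → a.natDegree = 0 → IsUnit a := by
    intro a b hab ha
    rw [natDegree_eq_zero] at ha
    obtain ⟨α, rfl⟩ := ha
    rw [isUnit_C]
    apply hcop
    · refine ⟨- b.coeff N, ?_⟩
      rw [mul_neg, ← coeff_C_mul, ← hab, hcoeffN, neg_neg]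
    · refine ⟨b.coeff 0, ?_⟩
      rw [← coeff_C_mul, ← hab, hcoeff0]
  refine ⟨fun hu => ?_, fun a b hab => ?_⟩
  · have := natDegree_eq_zero_of_isUnit hu
    omega
  · have ha0 : a ≠ 0 := by
      rintro rfl
      exact hg0 (by rw [hab, zero_mul])
    have hb0 : b ≠ 0 := by
      rintro rfl
      exact hg0 (by rw [hab, mul_zero])
    by_cases ha : a.natDegree = 0
    · exact Or.inl (key a b hab ha)
    by_cases hb : b.natDegree = 0
    · exact Or.inr (key b a (by rw [hab, mul_comm]) hb)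
    exfalso
    have h1 : a.map (Ideal.Quotient.mk (Ideal.span {π})) *
        b.map (Ideal.Quotient.mk (Ideal.span {π})) =
        C (Ideal.Quotient.mk (Ideal.span {π}) B) := by
      rw [← Polynomial.map_mul, ← hab, hmap]
    have h2 : a.map (Ideal.Quotient.mk (Ideal.span {π})) ≠ 0 := by
      intro h
      rw [h, zero_mul] at h1
      exact hBne (C_eq_zero.1 h1.symm)
    have h3 : b.map (Ideal.Quotient.mk (Ideal.span {π})) ≠ 0 := by
      intro h
      rw [h, mul_zero] at h1
      exact hBne (C_eq_zero.1 h1.symm)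
    have h4 := congrArg natDegree h1
    rw [natDegree_mul h2 h3, natDegree_C] at h4
    have h5 : π ∣ a.leadingCoeff := by
      rw [← Ideal.mem_span_singleton, ← Ideal.Quotient.eq_zero_iff_mem]
      rw [leadingCoeff, ← coeff_map]
      exact coeff_eq_zero_of_natDegree_lt (by omega)
    have h6 : π ∣ b.leadingCoeff := by
      rw [← Ideal.mem_span_singleton, ← Ideal.Quotient.eq_zero_iff_mem]
      rw [leadingCoeff, ← coeff_map]
      exact coeff_eq_zero_of_natDegree_lt (by omega)
    apply hA2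
    have h7 : a.leadingCoeff * b.leadingCoeff = -A := by
      rw [← leadingCoeff_mul, ← hab, leadingCoeff, hdegN, hcoeffN]
    rw [← dvd_neg, ← h7, pow_two]
    exact mul_dvd_mul h5 h6

end Irr

open MvPolynomial

/-- surface form -/
def surf {S : Type*} [CommRing S] (s : ℕ) (x0 x1 x2 x3 : S) : S :=
  (x0 * x1 ^ (s + 1) - x0 ^ (s + 2)) * (x3 ^ (s + 2) - x2 ^ (s + 1) * x3) -
    x1 * x2 * (x2 ^ (s + 1) - x1 ^ (s + 1)) ^ 2

lemma map_surf {S T : Type*} [CommRing S] [CommRing T] (f : S →+* T) (s : ℕ) (x0 x1 x2 x3 : S) :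
    f (surf s x0 x1 x2 x3) = surf s (f x0) (f x1) (f x2) (f x3) := by
  simp only [surf, map_sub, map_mul, map_pow]

lemma sum_pderiv_eq {σ K : Type*} [Fintype σ] [CommRing K] (q : ℕ) (F : MvPolynomial σ K) :
    ∑ i, X i ^ q * pderiv i F = mkDerivation K (fun i : σ => (X i ^ q : MvPolynomial σ K)) F := by
  classical
  induction F using MvPolynomial.induction_on with
  | C a => simp
  | add p q hp hq =>
    rw [map_add, ← hp, ← hq, ← Finset.sum_add_distrib]
    refine Finset.sum_congr rfl fun i _ => ?_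
    rw [map_add, mul_add]
  | mul_X p i hp =>
    rw [Derivation.leibniz, ← hp, mkDerivation_X, smul_eq_mul, smul_eq_mul, Finset.mul_sum]
    have : ∀ j, X j ^ q * (pderiv j) (p * X i) =
        X i * (X j ^ q * pderiv j p) + (if j = i then p * X i ^ q else 0) := by
      intro j
      rw [Derivation.leibniz, pderiv_X, smul_eq_mul, smul_eq_mul]
      by_cases h : j = i
      · subst h
        simp
        ring
      · rw [Pi.single_eq_of_ne (Ne.symm h), if_neg h]
        ring
    rw [Finset.sum_congr rfl fun j _ => this j, Finset.sum_add_distrib, Finset.sum_ite_eq']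
    simp
    ring

/-- A derivation with `D x_i = x_i^(s+2)` in characteristic dividing `s+2`. -/
lemma deriv_surf {K S : Type*} [CommRing K] [CommRing S] [Algebra K S] (D : Derivation K S S)
    (s : ℕ) (hs : ((s + 2 : ℕ) : S) = 0) (x0 x1 x2 x3 : S) (h0 : D x0 = x0 ^ (s + 2))
    (h1 : D x1 = x1 ^ (s + 2)) (h2 : D x2 = x2 ^ (s + 2)) (h3 : D x3 = x3 ^ (s + 2)) :
    D (surf s x0 x1 x2 x3) = - (x1 ^ (s + 1) + x2 ^ (s + 1)) * surf s x0 x1 x2 x3 := by
  have hs' : ((s : S) + 1) = -1 := by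
    push_cast at hs
    linear_combination hs
  have key : ∀ x : S, D x = x ^ (s + 2) → D (x ^ (s + 1)) = - (x ^ (s + 1) * x ^ (s + 1)) := by
    intro x hx
    rw [Derivation.leibniz_pow, hx, Nat.add_sub_cancel, nsmul_eq_mul, smul_eq_mul]
    push_cast
    rw [hs']
    ring
  have key2 : ∀ x : S, D (x ^ (s + 2)) = 0 := by
    intro x
    rw [Derivation.leibniz_pow, nsmul_eq_mul, hs, zero_mul]
  simp only [surf, map_sub, Derivation.leibniz, smul_eq_mul, pow_two, key x1 h1, key x2 h2,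
    key2, h0, h1, h2, h3]
  ring

lemma isHomogeneous_surf {K : Type*} [CommRing K] (m s : ℕ) :
    (surf s (X 0) (X 1) (X 2) (X 3) : MvPolynomial (Fin (m + 4)) K).IsHomogeneous
      (2 * (s + 2)) := by
  have hX : ∀ i : Fin (m + 4), (X i : MvPolynomial (Fin (m + 4)) K).IsHomogeneous 1 :=
    fun i => isHomogeneous_X K i
  have hP : ∀ (i : Fin (m + 4)) (k : ℕ), (X i ^ k : MvPolynomial (Fin (m + 4)) K).IsHomogeneous k :=
    fun i k => isHomogeneous_X_pow i k
  have h1 : (X 0 * X 1 ^ (s + 1) - X 0 ^ (s + 2) : MvPolynomial (Fin (m + 4)) K).IsHomogeneous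
      (s + 2) := by
    refine IsHomogeneous.sub ?_ (hP 0 _)
    have := (hX 0).mul (hP 1 (s + 1))
    rwa [show 1 + (s + 1) = s + 2 by ring] at this
  have h2 : (X 3 ^ (s + 2) - X 2 ^ (s + 1) * X 3 : MvPolynomial (Fin (m + 4)) K).IsHomogeneous
      (s + 2) := by
    refine IsHomogeneous.sub (hP 3 _) ?_
    exact (hP 2 (s + 1)).mul (hX 3)
  have h3 : (X 1 * X 2 * (X 2 ^ (s + 1) - X 1 ^ (s + 1)) ^ 2 :
      MvPolynomial (Fin (m + 4)) K).IsHomogeneous (1 + 1 + (s + 1) * 2) :=
    ((hX 1).mul (hX 2)).mul (((hP 2 _).sub (hP 1 _)).pow 2)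
  rw [surf]
  refine IsHomogeneous.sub ?_ ?_
  · have := h1.mul h2
    rwa [show s + 2 + (s + 2) = 2 * (s + 2) by ring] at this
  · rwa [show 1 + 1 + (s + 1) * 2 = 2 * (s + 2) by ring] at h3

lemma irreducible_surf {K : Type*} [Field K] (m s : ℕ) :
    Irreducible (surf s (X 0) (X 1) (X 2) (X 3) : MvPolynomial (Fin (m + 4)) K) := by
  rw [← MulEquiv.irreducible_iff (finSuccEquiv K (m + 3))]
  have e0 : finSuccEquiv K (m + 3) (X 0) = Polynomial.X := finSuccEquiv_X_zero
  have e1 : finSuccEquiv K (m + 3) (X 1) = Polynomial.C (X 0) := finSuccEquiv_X_succ (j := 0)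
  have e2 : finSuccEquiv K (m + 3) (X 2) = Polynomial.C (X 1) := finSuccEquiv_X_succ (j := 1)
  have e3 : finSuccEquiv K (m + 3) (X 3) = Polynomial.C (X 2) := finSuccEquiv_X_succ (j := 2)
  have e := map_surf ((finSuccEquiv K (m + 3)).toRingEquiv.toRingHom) s (X 0) (X 1) (X 2) (X 3)
  have e' : finSuccEquiv K (m + 3) (surf s (X 0) (X 1) (X 2) (X 3)) =
      (surf s Polynomial.X (Polynomial.C (X 0)) (Polynomial.C (X 1)) (Polynomial.C (X 2)) :
        Polynomial (MvPolynomial (Fin (m + 3)) K)) := by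
    rw [← e0, ← e1, ← e2, ← e3]
    exact e
  rw [e']
  set A : MvPolynomial (Fin (m + 3)) K := X 2 ^ (s + 2) - X 1 ^ (s + 1) * X 2 with hA
  set B : MvPolynomial (Fin (m + 3)) K := - (X 0 * X 1 * (X 1 ^ (s + 1) - X 0 ^ (s + 1)) ^ 2)
    with hB
  have hsurf : (surf s Polynomial.X (Polynomial.C (X 0)) (Polynomial.C (X 1))
      (Polynomial.C (X 2)) : Polynomial (MvPolynomial (Fin (m + 3)) K)) = Polynomial.C A * (Polynomial.X * Polynomial.C (X 0 ^ (s + 1)) -
        Polynomial.X ^ (s + 2)) + Polynomial.C B := by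
    rw [surf, hA, hB]
    simp only [map_sub, map_mul, map_pow, map_neg]
    ring
  rw [hsurf]
  have n10 : (1 : Fin (m + 3)) ≠ 0 := by
    intro h; have := congrArg Fin.val h; simp at this
  have n20 : (2 : Fin (m + 3)) ≠ 0 := by
    rw [Ne, Fin.ext_iff]
    show ¬ 2 % (m + 3) = 0 % (m + 3)
    rw [Nat.mod_eq_of_lt (by omega), Nat.mod_eq_of_lt (by omega)]
    omega
  have n21 : (2 : Fin (m + 3)) ≠ 1 := by
    rw [Ne, Fin.ext_iff]
    show ¬ 2 % (m + 3) = 1 % (m + 3)
    rw [Nat.mod_eq_of_lt (by omega), Nat.mod_eq_of_lt (by omega)]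
    omega
  refine irreducible_aux (X 2) A B _ (s + 2) (by omega) X_prime ?_ ?_ ?_ ?_
  · exact ⟨X 2 ^ (s + 1) - X 1 ^ (s + 1), by rw [hA]; ring⟩
  · rintro ⟨c, hc⟩
    have h1 : (X 2 : MvPolynomial (Fin (m + 3)) K) * (X 2 ^ (s + 1) - X 1 ^ (s + 1)) =
        X 2 * (X 2 * c) := by
      rw [hA] at hc
      linear_combination hc
    have h2 := mul_left_cancel₀ X_prime.ne_zero h1
    have h3 := congrArg (eval (fun i : Fin (m + 3) => if i = 1 then (1 : K) else 0)) h2
    simp [n21] at h3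
  · rintro ⟨c, hc⟩
    have h4 : (X 1 ^ (s + 1) - X 0 ^ (s + 1) : MvPolynomial (Fin (m + 3)) K) ≠ 0 := by
      intro h
      have h3 := congrArg (eval (fun i : Fin (m + 3) => if i = 1 then (1 : K) else 0)) h
      simp [n10.symm] at h3
    have h1 := congrArg (aeval (fun i : Fin (m + 3) =>
      if i = 2 then (0 : MvPolynomial (Fin (m + 3)) K) else X i)) hc
    rw [hB] at h1
    simp only [map_neg, map_mul, map_pow, map_sub, aeval_X, n20.symm, n21.symm, if_false, if_true,
      zero_mul, neg_eq_zero, mul_eq_zero, X_ne_zero, false_or] at h1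
    exact h4 (pow_eq_zero_iff (two_ne_zero) |>.1 h1)
  · intro r hrA hrB
    let τ : MvPolynomial (Fin (m + 3)) K ≃ₐ[K] Polynomial (MvPolynomial (Fin (m + 2)) K) :=
      (renameEquiv K (Equiv.swap (0 : Fin (m + 3)) 2)).trans (finSuccEquiv K (m + 2))
    have t2 : τ (X 2) = Polynomial.X := by
      show finSuccEquiv K (m + 2) (renameEquiv K (Equiv.swap (0 : Fin (m + 3)) 2) (X 2)) = _
      rw [renameEquiv_apply, rename_X, Equiv.swap_apply_right, finSuccEquiv_X_zero]
    have t1 : τ (X 1) = Polynomial.C (X 0) := by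
      show finSuccEquiv K (m + 2) (renameEquiv K (Equiv.swap (0 : Fin (m + 3)) 2) (X 1)) = _
      rw [renameEquiv_apply, rename_X, Equiv.swap_apply_of_ne_of_ne n10 n21.symm]
      exact finSuccEquiv_X_succ (j := 0)
    have t0 : τ (X 0) = Polynomial.C (X 1) := by
      show finSuccEquiv K (m + 2) (renameEquiv K (Equiv.swap (0 : Fin (m + 3)) 2) (X 0)) = _
      rw [renameEquiv_apply, rename_X, Equiv.swap_apply_left]
      exact finSuccEquiv_X_succ (j := 1)
    have hA' : τ A = Polynomial.X ^ (s + 2) - Polynomial.C (X 0 ^ (s + 1)) * Polynomial.X := by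
      rw [hA, map_sub, map_mul, map_pow, map_pow, t1, t2, map_pow]
    have hB' : τ B = Polynomial.C (- (X 1 * X 0 * (X 0 ^ (s + 1) - X 1 ^ (s + 1)) ^ 2)) := by
      rw [hB]
      simp only [map_neg, map_mul, map_sub, map_pow, t0, t1]
    have hmonic : (Polynomial.X ^ (s + 2) - Polynomial.C (X 0 ^ (s + 1)) * Polynomial.X :
        Polynomial (MvPolynomial (Fin (m + 2)) K)).Monic := by
      apply Polynomial.monic_X_pow_sub
      refine (Polynomial.degree_C_mul_X_le _).trans_lt ?_
      exact_mod_cast (by omega : 1 < s + 2)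
    have hb : (- (X 1 * X 0 * (X 0 ^ (s + 1) - X 1 ^ (s + 1)) ^ 2) :
        MvPolynomial (Fin (m + 2)) K) ≠ 0 := by
      rw [neg_ne_zero]
      refine mul_ne_zero (mul_ne_zero (X_ne_zero _) (X_ne_zero _)) (pow_ne_zero _ ?_)
      intro h
      have h3 := congrArg (eval (fun i : Fin (m + 2) => if i = 0 then (1 : K) else 0)) h
      have n10' : (1 : Fin (m + 2)) ≠ 0 := by
        intro h; have := congrArg Fin.val h; simp at this
      simp [n10'] at h3
    have h1 : τ r ∣ τ A := map_dvd τ hrA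
    have h2 : τ r ∣ τ B := map_dvd τ hrB
    rw [hA'] at h1
    rw [hB'] at h2
    have h3 : (τ r).natDegree = 0 := by
      have := Polynomial.natDegree_le_of_dvd h2 (Polynomial.C_ne_zero.2 hb)
      rw [Polynomial.natDegree_C] at this
      omega
    rw [Polynomial.natDegree_eq_zero] at h3
    obtain ⟨c, hc⟩ := h3
    rw [← hc, hmonic.C_dvd_iff_isUnit] at h1
    have h4 : IsUnit (τ r) := by
      rw [← hc, Polynomial.isUnit_C]
      exact h1
    exact (MulEquiv.isUnit_map τ).1 h4

lemma fin_ne {n : ℕ} (a b : ℕ) (ha : a < n + 4) (hb : b < n + 4) (hab : a ≠ b) :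
    (Fin.ofNat (n + 4) a) ≠ (Fin.ofNat (n + 4) b) := by
  rw [Ne, Fin.ext_iff]
  show ¬ a % (n + 4) = b % (n + 4)
  rw [Nat.mod_eq_of_lt ha, Nat.mod_eq_of_lt hb]
  exact hab

section partials

variable {K : Type*} [CommRing K] (m s : ℕ)

lemma pderiv_zero_surf (hs : ((s + 2 : ℕ) : K) = 0) :
    pderiv 0 (surf s (X 0) (X 1) (X 2) (X 3) : MvPolynomial (Fin (m + 4)) K) =
      X 1 ^ (s + 1) * (X 3 ^ (s + 2) - X 2 ^ (s + 1) * X 3) := by
  have hs' : ((s + 2 : ℕ) : MvPolynomial (Fin (m + 4)) K) = 0 := by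
    rw [← map_natCast (C : K →+* MvPolynomial (Fin (m + 4)) K), hs, map_zero]
  have h0 : pderiv 0 (X 0 : MvPolynomial (Fin (m + 4)) K) = 1 := pderiv_X_self 0
  have h1 : pderiv 0 (X 1 : MvPolynomial (Fin (m + 4)) K) = 0 :=
    pderiv_X_of_ne (fin_ne 1 0 (by omega) (by omega) (by omega))
  have h2 : pderiv 0 (X 2 : MvPolynomial (Fin (m + 4)) K) = 0 :=
    pderiv_X_of_ne (fin_ne 2 0 (by omega) (by omega) (by omega))
  have h3 : pderiv 0 (X 3 : MvPolynomial (Fin (m + 4)) K) = 0 :=
    pderiv_X_of_ne (fin_ne 3 0 (by omega) (by omega) (by omega))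
  simp only [surf, map_sub, Derivation.leibniz, Derivation.leibniz_pow, h0, h1, h2, h3, smul_zero,
    smul_eq_mul, mul_zero, add_zero, sub_zero, nsmul_eq_mul, hs', zero_mul, mul_one]
  ring

lemma pderiv_three_surf (hs : ((s + 2 : ℕ) : K) = 0) :
    pderiv 3 (surf s (X 0) (X 1) (X 2) (X 3) : MvPolynomial (Fin (m + 4)) K) =
      - (X 2 ^ (s + 1) * (X 0 * X 1 ^ (s + 1) - X 0 ^ (s + 2))) := by
  have hs' : ((s + 2 : ℕ) : MvPolynomial (Fin (m + 4)) K) = 0 := by
    rw [← map_natCast (C : K →+* MvPolynomial (Fin (m + 4)) K), hs, map_zero]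
  have h0 : pderiv 3 (X 0 : MvPolynomial (Fin (m + 4)) K) = 0 :=
    pderiv_X_of_ne (fin_ne 0 3 (by omega) (by omega) (by omega))
  have h1 : pderiv 3 (X 1 : MvPolynomial (Fin (m + 4)) K) = 0 :=
    pderiv_X_of_ne (fin_ne 1 3 (by omega) (by omega) (by omega))
  have h2 : pderiv 3 (X 2 : MvPolynomial (Fin (m + 4)) K) = 0 :=
    pderiv_X_of_ne (fin_ne 2 3 (by omega) (by omega) (by omega))
  have h3 : pderiv 3 (X 3 : MvPolynomial (Fin (m + 4)) K) = 1 := pderiv_X_self 3
  simp only [surf, map_sub, Derivation.leibniz, Derivation.leibniz_pow, h0, h1, h2, h3, smul_zero,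
    smul_eq_mul, mul_zero, add_zero, sub_zero, nsmul_eq_mul, hs', zero_mul, mul_one]
  ring

end partials

section main

variable {K : Type*} [Field K] (m s : ℕ)

lemma not_dvd_of_degree {d : ℕ} (hd : d < 2 * (s + 2)) {P : MvPolynomial (Fin (m + 4)) K}
    (hP : P.IsHomogeneous d) (hP0 : P ≠ 0) :
    ¬ (surf s (X 0) (X 1) (X 2) (X 3) : MvPolynomial (Fin (m + 4)) K) ∣ P := by
  rintro ⟨c, hc⟩
  have hG0 : (surf s (X 0) (X 1) (X 2) (X 3) : MvPolynomial (Fin (m + 4)) K) ≠ 0 :=
    (irreducible_surf m s).ne_zero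
  have hc0 : c ≠ 0 := by
    rintro rfl
    exact hP0 (by rw [hc, mul_zero])
  have h1 := congrArg totalDegree hc
  rw [totalDegree_mul_of_isDomain hG0 hc0, hP.totalDegree hP0,
    (isHomogeneous_surf m s).totalDegree hG0] at h1
  omega

lemma key_pth_power (p : ℕ) [CharP K p] (hp2 : (2 : K) ≠ 0)
    (hs : ((s + 2 : ℕ) : K) = 0) (U V : MvPolynomial (Fin (m + 4)) K)
    (h : (surf s (X 0) (X 1) (X 2) (X 3) : MvPolynomial (Fin (m + 4)) K) ∣
      U ^ p * pderiv 3 (surf s (X 0) (X 1) (X 2) (X 3)) -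
        V ^ p * pderiv 0 (surf s (X 0) (X 1) (X 2) (X 3))) :
    (surf s (X 0) (X 1) (X 2) (X 3) : MvPolynomial (Fin (m + 4)) K) ∣ U := by
  have hs' : ((s + 2 : ℕ) : MvPolynomial (Fin (m + 4)) K) = 0 := by
    rw [← map_natCast (C : K →+* MvPolynomial (Fin (m + 4)) K), hs, map_zero]
  have hprime : Prime (surf s (X 0) (X 1) (X 2) (X 3) : MvPolynomial (Fin (m + 4)) K) :=
    (irreducible_surf m s).prime
  set G : MvPolynomial (Fin (m + 4)) K := surf s (X 0) (X 1) (X 2) (X 3) with hG
  set G0 := pderiv 0 G with hG0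
  set G3 := pderiv 3 G with hG3
  have eG0 : G0 = X 1 ^ (s + 1) * (X 3 ^ (s + 2) - X 2 ^ (s + 1) * X 3) :=
    pderiv_zero_surf m s hs
  have eG3 : G3 = - (X 2 ^ (s + 1) * (X 0 * X 1 ^ (s + 1) - X 0 ^ (s + 2))) :=
    pderiv_three_surf m s hs
  let δ : Derivation K (MvPolynomial (Fin (m + 4)) K) (MvPolynomial (Fin (m + 4)) K) :=
    G0 • pderiv 3 - G3 • pderiv 0
  have hδ : ∀ f, δ f = G0 * pderiv 3 f - G3 * pderiv 0 f := fun f => rfl
  have hδG : δ G = 0 := by
    rw [hδ, ← hG0, ← hG3]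
    ring
  have n03 : (0 : Fin (m + 4)) ≠ 3 := fin_ne 0 3 (by omega) (by omega) (by omega)
  have n30 : (3 : Fin (m + 4)) ≠ 0 := n03.symm
  have n10 : (1 : Fin (m + 4)) ≠ 0 := fin_ne 1 0 (by omega) (by omega) (by omega)
  have n13 : (1 : Fin (m + 4)) ≠ 3 := fin_ne 1 3 (by omega) (by omega) (by omega)
  have n20 : (2 : Fin (m + 4)) ≠ 0 := fin_ne 2 0 (by omega) (by omega) (by omega)
  have n23 : (2 : Fin (m + 4)) ≠ 3 := fin_ne 2 3 (by omega) (by omega) (by omega)
  have d0 : δ (X 0) = - G3 := by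
    rw [hδ, pderiv_X_self, pderiv_X_of_ne n03]
    ring
  have d3 : δ (X 3) = G0 := by
    rw [hδ, pderiv_X_self, pderiv_X_of_ne n30]
    ring
  have d1 : δ (X 1) = 0 := by
    rw [hδ, pderiv_X_of_ne n10, pderiv_X_of_ne n13]
    ring
  have d2 : δ (X 2) = 0 := by
    rw [hδ, pderiv_X_of_ne n20, pderiv_X_of_ne n23]
    ring
  have dp : ∀ W : MvPolynomial (Fin (m + 4)) K, δ (W ^ p) = 0 := by
    intro W
    rw [Derivation.leibniz_pow, nsmul_eq_mul, CharP.cast_eq_zero, zero_mul]
  have dG0 : δ G0 = - (X 1 ^ (s + 1) * X 2 ^ (s + 1) * G0) := by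
    conv_lhs => rw [eG0]
    simp only [map_sub, Derivation.leibniz, Derivation.leibniz_pow, d1, d2, d3, smul_zero,
      smul_eq_mul, mul_zero, add_zero, zero_sub, nsmul_eq_mul, hs', zero_mul]
    ring
  have dG3 : δ G3 = X 1 ^ (s + 1) * X 2 ^ (s + 1) * G3 := by
    conv_lhs => rw [eG3]
    simp only [map_neg, map_sub, Derivation.leibniz, Derivation.leibniz_pow, d1, d2, d0, smul_zero,
      smul_eq_mul, mul_zero, add_zero, zero_add, sub_zero, nsmul_eq_mul, hs', zero_mul]
    ring
  obtain ⟨H, hH⟩ := h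
  have h1 := congrArg δ hH
  rw [map_sub, Derivation.leibniz, Derivation.leibniz, Derivation.leibniz, dp, dp, dG0, dG3,
    hδG] at h1
  simp only [smul_eq_mul, mul_zero, add_zero] at h1
  have h2 : C 2 * X 1 ^ (s + 1) * X 2 ^ (s + 1) * G3 * U ^ p =
      G * (δ H + X 1 ^ (s + 1) * X 2 ^ (s + 1) * H) := by
    have hC : (C 2 : MvPolynomial (Fin (m + 4)) K) = 2 := map_ofNat C 2
    rw [hC]
    linear_combination h1 + X 1 ^ (s + 1) * X 2 ^ (s + 1) * hH
  have h3 : G ∣ C 2 * X 1 ^ (s + 1) * X 2 ^ (s + 1) * G3 * U ^ p := ⟨_, h2⟩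
  have n1 : ¬ G ∣ X 1 :=
    not_dvd_of_degree m s (by omega) (isHomogeneous_X K 1) (X_ne_zero _)
  have n2 : ¬ G ∣ X 2 :=
    not_dvd_of_degree m s (by omega) (isHomogeneous_X K 2) (X_ne_zero _)
  have nC : ¬ G ∣ C 2 :=
    not_dvd_of_degree m s (by omega) (isHomogeneous_C _ (2 : K)) (by rwa [Ne, C_eq_zero])
  have n3 : ¬ G ∣ X 0 * X 1 ^ (s + 1) - X 0 ^ (s + 2) := by
    refine not_dvd_of_degree m s (d := s + 2) (by omega) ?_ ?_
    · refine IsHomogeneous.sub ?_ (isHomogeneous_X_pow 0 _)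
      have := (isHomogeneous_X K (0 : Fin (m + 4))).mul
        (isHomogeneous_X_pow (R := K) (1 : Fin (m + 4)) (s + 1))
      rwa [show 1 + (s + 1) = s + 2 by ring] at this
    · intro h
      have h5 := congrArg (eval (fun i : Fin (m + 4) => if i = 0 then (1 : K) else 0)) h
      have n10' : (1 : Fin (m + 4)) ≠ 0 := fin_ne 1 0 (by omega) (by omega) (by omega)
      simp [n10'] at h5
  have nG3 : ¬ G ∣ G3 := by
    rw [eG3, dvd_neg]
    intro h
    rcases hprime.dvd_or_dvd h with h | h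
    · exact n2 (hprime.dvd_of_dvd_pow h)
    · exact n3 h
  rcases hprime.dvd_or_dvd h3 with h4 | h4
  · rcases hprime.dvd_or_dvd h4 with h4 | h4
    · rcases hprime.dvd_or_dvd h4 with h4 | h4
      · rcases hprime.dvd_or_dvd h4 with h4 | h4
        · exact absurd h4 nC
        · exact absurd (hprime.dvd_of_dvd_pow h4) n1
      · exact absurd (hprime.dvd_of_dvd_pow h4) n2
    · exact absurd h4 nG3
  · exact hprime.dvd_of_dvd_pow h4

end main

section curve

variable (K : Type) [CommRing K] (n : ℕ)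

/-- The parametrization `(u, ut, ut^2, …)` of the rational normal curve. -/
noncomputable def curveMap : MvPolynomial (Fin (n + 1)) K →ₐ[K] MvPolynomial (Fin 2) K :=
  aeval fun i => X 0 * X 1 ^ (i : ℕ)

/-- The exponent map of `curveMap`. -/
noncomputable def expo : (Fin (n + 1) →₀ ℕ) →+ (Fin 2 →₀ ℕ) :=
  Finsupp.liftAddHom fun i => (multiplesHom (Fin 2 →₀ ℕ))
    (Finsupp.single 0 1 + Finsupp.single 1 (i : ℕ))

lemma expo_single (i : Fin (n + 1)) (k : ℕ) :
    expo n (Finsupp.single i k) = k • (Finsupp.single 0 1 + Finsupp.single 1 (i : ℕ)) := by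
  rw [expo, Finsupp.liftAddHom_apply_single, multiplesHom_apply]

lemma expo_zero_apply (m : Fin (n + 1) →₀ ℕ) : expo n m 0 = m.degree := by
  induction m using Finsupp.induction_linear with
  | zero => simp
  | add f g hf hg => rw [map_add, Finsupp.add_apply, hf, hg, map_add]
  | single i k =>
    rw [expo_single, Finsupp.degree_single]
    simp

lemma curveMap_monomial (m : Fin (n + 1) →₀ ℕ) (c : K) :
    curveMap K n (monomial m c) = monomial (expo n m) c := by
  induction m using Finsupp.induction_linear generalizing c with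
  | zero =>
    rw [map_zero]
    exact (curveMap K n).commutes c
  | add f g hf hg =>
    have : (monomial (f + g) c : MvPolynomial (Fin (n + 1)) K) = monomial f 1 * monomial g c := by
      rw [monomial_mul, one_mul]
    rw [this, map_mul, hf, hg, monomial_mul, one_mul, map_add]
  | single i k =>
    have h1 : (monomial (Finsupp.single i k) c : MvPolynomial (Fin (n + 1)) K) = C c * X i ^ k := by
      rw [X_pow_eq_monomial, C_mul_monomial, mul_one]
    rw [h1, map_mul, map_pow, expo_single]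
    have h2 : curveMap K n (X i) = monomial (Finsupp.single 0 1 + Finsupp.single 1 (i : ℕ)) 1 := by
      rw [curveMap, aeval_X, X, X_pow_eq_monomial, monomial_mul, one_mul]
    have h3 : curveMap K n (C c) = C c := (curveMap K n).commutes c
    rw [h2, h3, monomial_pow, one_pow, C_mul_monomial, mul_one]

/-- The binomials in the ideal of the rational normal curve. -/
def binomials : Set (MvPolynomial (Fin (n + 1)) K) :=
  {f | ∃ m m' : Fin (n + 1) →₀ ℕ, expo n m = expo n m' ∧ f = monomial m 1 - monomial m' 1}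

/-- The ideal of the rational normal curve. -/
noncomputable def curveIdeal : Ideal (MvPolynomial (Fin (n + 1)) K) := RingHom.ker (curveMap K n)

lemma curveIdeal_eq_span : curveIdeal K n = Ideal.span (binomials K n) := by
  apply le_antisymm
  · let sec : MvPolynomial (Fin 2) K →ₗ[K] MvPolynomial (Fin (n + 1)) K :=
      (basisMonomials (Fin 2) K).constr K fun w => monomial (Function.invFun (expo n) w) 1
    have hsec : ∀ w c, sec (monomial w c) = monomial (Function.invFun (expo n) w) c := by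
      intro w c
      have h1 : (monomial w c : MvPolynomial (Fin 2) K) = c • (basisMonomials (Fin 2) K w) := by
        rw [coe_basisMonomials, smul_monomial, smul_eq_mul, mul_one]
      rw [h1, map_smul]
      simp only [sec]
      rw [Module.Basis.constr_basis, smul_monomial, smul_eq_mul, mul_one]
    have key : ∀ f : MvPolynomial (Fin (n + 1)) K,
        f - sec (curveMap K n f) ∈ Ideal.span (binomials K n) := by
      intro f
      induction f using MvPolynomial.induction_on' with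
      | monomial m c =>
        rw [curveMap_monomial, hsec]
        have h1 : (monomial m c - monomial (Function.invFun (expo n) (expo n m)) c :
            MvPolynomial (Fin (n + 1)) K) =
            C c * (monomial m 1 - monomial (Function.invFun (expo n) (expo n m)) 1) := by
          rw [mul_sub, C_mul_monomial, C_mul_monomial, mul_one]
        rw [h1]
        apply Ideal.mul_mem_left
        apply Ideal.subset_span
        exact ⟨_, _, (Function.invFun_eq ⟨m, rfl⟩).symm, rfl⟩
      | add p q hp hq =>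
        rw [map_add, map_add, add_sub_add_comm]
        exact add_mem hp hq
    intro f hf
    have hf' : curveMap K n f = 0 := hf
    have := key f
    rwa [hf', map_zero, sub_zero] at this
  · rw [Ideal.span_le]
    rintro _ ⟨m, m', h, rfl⟩
    show curveMap K n _ = 0
    rw [map_sub, curveMap_monomial, curveMap_monomial, h, sub_self]

attribute [local instance] MvPolynomial.gradedAlgebra in
lemma curveIdeal_isHomogeneous (f : MvPolynomial (Fin (n + 1)) K) (hf : f ∈ curveIdeal K n)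
    (d : ℕ) : homogeneousComponent d f ∈ curveIdeal K n := by
  rw [curveIdeal_eq_span] at hf ⊢
  refine homogeneousComponent_mem_of_mem ?_ hf d
  apply Ideal.homogeneous_span
  rintro _ ⟨m, m', h, rfl⟩
  refine ⟨m.degree, ?_⟩
  rw [mem_homogeneousSubmodule]
  refine IsHomogeneous.sub (isHomogeneous_monomial _ rfl) (isHomogeneous_monomial _ ?_)
  rw [← expo_zero_apply, ← expo_zero_apply, h]

lemma map_curveIdeal {L : Type} [CommRing L] (f : K →+* L) :
    (curveIdeal K n).map (MvPolynomial.map f) = curveIdeal L n := by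
  rw [curveIdeal_eq_span, curveIdeal_eq_span, Ideal.map_span]
  congr 1
  ext g
  constructor
  · rintro ⟨_, ⟨m, m', h, rfl⟩, rfl⟩
    refine ⟨m, m', h, ?_⟩
    rw [map_sub, map_monomial, map_monomial, map_one]
  · rintro ⟨m, m', h, rfl⟩
    refine ⟨_, ⟨m, m', h, rfl⟩, ?_⟩
    rw [map_sub, map_monomial, map_monomial, map_one]

lemma expo_one_injective : Function.Injective (expo 1) := by
  intro m m' h
  have h0 : expo 1 m 0 = expo 1 m' 0 := by rw [h]
  have h1 : ∀ m : Fin 2 →₀ ℕ, expo 1 m 1 = m 1 := by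
    intro m
    induction m using Finsupp.induction_linear with
    | zero => simp
    | add f g hf hg => rw [map_add, Finsupp.add_apply, hf, hg, Finsupp.add_apply]
    | single i k =>
      rw [expo_single]
      fin_cases i <;> simp
  have h2 : m 1 = m' 1 := by rw [← h1 m, ← h1 m', h]
  rw [expo_zero_apply, expo_zero_apply, Finsupp.degree_eq_sum, Finsupp.degree_eq_sum,
    Fin.sum_univ_two, Fin.sum_univ_two] at h0
  ext i
  fin_cases i
  · show m 0 = m' 0
    omega
  · exact h2

lemma curveMap_one_injective : Function.Injective (curveMap K 1) := by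
  rw [RingHom.injective_iff_ker_eq_bot]
  have h := curveIdeal_eq_span K 1
  rw [curveIdeal] at h
  rw [← RingHom.ker_coe_toRingHom] at h
  refine Eq.trans ?_ (Eq.trans h ?_)
  · rfl
  · rw [Ideal.span_eq_bot]
    rintro _ ⟨m, m', h, rfl⟩
    rw [expo_one_injective h, sub_self]

lemma trdeg_curve [IsDomain K] (hn : 1 ≤ n) :
    Algebra.trdeg K (MvPolynomial (Fin (n + 1)) K ⧸ curveIdeal K n) = 2 := by
  apply le_antisymm
  · have h1 := trdeg_le_of_injective (Ideal.kerLiftAlg (curveMap K n))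
      (Ideal.kerLiftAlg_injective _)
    rw [MvPolynomial.trdeg_of_isDomain] at h1
    refine h1.trans ?_
    simp
  · have h1 : AlgebraicIndependent K (fun i : Fin 2 =>
        (Ideal.Quotient.mk (curveIdeal K n) (X (Fin.castLE (by omega) i)) :
          MvPolynomial (Fin (n + 1)) K ⧸ curveIdeal K n)) := by
      apply AlgebraicIndependent.of_comp (Ideal.kerLiftAlg (curveMap K n))
      have h2 : (⇑(Ideal.kerLiftAlg (curveMap K n)) ∘ fun i : Fin 2 =>
          (Ideal.Quotient.mk (curveIdeal K n) (X (Fin.castLE (by omega) i)) :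
          MvPolynomial (Fin (n + 1)) K ⧸ curveIdeal K n)) =
          fun i : Fin 2 => (X 0 * X 1 ^ (i : ℕ) : MvPolynomial (Fin 2) K) := by
        funext i
        show curveMap K n (X (Fin.castLE _ i)) = _
        rw [curveMap, aeval_X]
        rfl
      rw [h2, algebraicIndependent_iff_injective_aeval]
      exact curveMap_one_injective K
    have h3 := h1.cardinalMk_le_trdeg
    simpa using h3

end curve

section Statement

/-- The field `k`, an algebraic closure of `𝔽_q`, `q = p ^ h`. -/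
abbrev Kbar (p h : ℕ) [Fact p.Prime] : Type := AlgebraicClosure (GaloisField p h)

/-- Polynomials over `𝔽_q` seen as polynomials over `k`. -/
noncomputable abbrev toK (p h : ℕ) [Fact p.Prime] {n : ℕ} :
    MvPolynomial (Fin (n + 1)) (GaloisField p h) →+* MvPolynomial (Fin (n + 1)) (Kbar p h) :=
  MvPolynomial.map (algebraMap (GaloisField p h) (Kbar p h))

/-- `F` defines an `𝔽_q`-Frobenius nonclassical hypersurface in `ℙ^n`: it is a nonconstant
homogeneous polynomial over `𝔽_q` without repeated factors (over `k`) and divides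
`∑ x_i ^ q F_i`. -/
structure IsFrobeniusNonclassical (p h : ℕ) [Fact p.Prime] {n : ℕ}
    (F : MvPolynomial (Fin (n + 1)) (GaloisField p h)) : Prop where
  homogeneous : ∃ d, 0 < d ∧ F.IsHomogeneous d
  squarefree : Squarefree (toK p h F)
  dvd : toK p h F ∣ ∑ i, X i ^ (p ^ h) * pderiv i (toK p h F)

variable {k : Type} [Field k] {n : ℕ}

/-- The class of a polynomial in the total fraction ring of `k[x_0, …, x_n] / J`. -/
noncomputable def cls (J : Ideal (MvPolynomial (Fin (n + 1)) k))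
    (a : MvPolynomial (Fin (n + 1)) k) : FractionRing (MvPolynomial (Fin (n + 1)) k ⧸ J) :=
  algebraMap _ _ (Ideal.Quotient.mk J a)

/-- The rational functions on the projective variety `V(J)`, `J` a homogeneous prime ideal: the
quotients `a / b` of two forms of the same degree with `b ∉ J`. -/
def ratFun (J : Ideal (MvPolynomial (Fin (n + 1)) k)) :
    Set (FractionRing (MvPolynomial (Fin (n + 1)) k ⧸ J)) :=
  {g | ∃ (d : ℕ) (a b : MvPolynomial (Fin (n + 1)) k),
    a.IsHomogeneous d ∧ b.IsHomogeneous d ∧ b ∉ J ∧ g * cls J b = cls J a}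

/-- The Gauss map of `F = 0` admits powers of `p` as coordinate functions: on each component
`P = 0` there are rational functions `g_0, …, g_n`, not all zero, such that
`(F_0 : … : F_n) = (g_0 ^ p : … : g_n ^ p)`. -/
def HasPthPowerCoordinates (p : ℕ) (F : MvPolynomial (Fin (n + 1)) k) : Prop :=
  ∀ P : MvPolynomial (Fin (n + 1)) k, Irreducible P → P ∣ F →
    ∃ g : Fin (n + 1) → FractionRing (MvPolynomial (Fin (n + 1)) k ⧸ Ideal.span {P}),
      (∀ i, g i ∈ ratFun (Ideal.span {P})) ∧ (∃ i, g i ≠ 0) ∧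
      ∀ i j, g i ^ p * cls _ (pderiv j F) = g j ^ p * cls _ (pderiv i F)

/-- `J` is the ideal of an irreducible curve in `ℙ^n` defined over `𝔽_q`: a homogeneous prime ideal
of `k[x_0, …, x_n]`, generated by polynomials over `𝔽_q`, such that `k[x_0, …, x_n] / J` has
transcendence degree two (so that the projective variety `V(J)` has dimension one). -/
structure IsIrreducibleCurveOver (p h : ℕ) [Fact p.Prime] {n : ℕ}
    (J : Ideal (MvPolynomial (Fin (n + 1)) (Kbar p h))) : Prop where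
  isPrime : J.IsPrime
  homogeneous : ∀ f ∈ J, ∀ d, homogeneousComponent d f ∈ J
  dim : Algebra.trdeg (Kbar p h) (MvPolynomial (Fin (n + 1)) (Kbar p h) ⧸ J) = 2
  definedOver : ∃ J₀ : Ideal (MvPolynomial (Fin (n + 1)) (GaloisField p h)), J = J₀.map (toK p h)

/-- The restriction of the Gauss map of `F = 0` to the curve `V(J)` is inseparable: every ratio
`F_i / F_j` defined on the curve is a `p`-th power of a rational function on the curve. -/
def InseparableOn (p : ℕ) (F : MvPolynomial (Fin (n + 1)) k)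
    (J : Ideal (MvPolynomial (Fin (n + 1)) k)) : Prop :=
  ∀ i j, pderiv j F ∉ J → ∃ g ∈ ratFun J, g ^ p * cls J (pderiv j F) = cls J (pderiv i F)

lemma cls_mul (J : Ideal (MvPolynomial (Fin (n + 1)) k)) (a b : MvPolynomial (Fin (n + 1)) k) :
    cls J (a * b) = cls J a * cls J b := by
  rw [cls, map_mul, map_mul, cls, cls]

lemma cls_pow (J : Ideal (MvPolynomial (Fin (n + 1)) k)) (a : MvPolynomial (Fin (n + 1)) k)
    (e : ℕ) : cls J (a ^ e) = cls J a ^ e := by
  rw [cls, map_pow, map_pow, cls]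

lemma cls_eq (J : Ideal (MvPolynomial (Fin (n + 1)) k)) {a b : MvPolynomial (Fin (n + 1)) k}
    (h : cls J a = cls J b) : a - b ∈ J := by
  have h1 := IsFractionRing.injective (MvPolynomial (Fin (n + 1)) k ⧸ J)
    (FractionRing (MvPolynomial (Fin (n + 1)) k ⧸ J)) h
  exact Ideal.Quotient.eq.1 h1

lemma cls_eq_zero (J : Ideal (MvPolynomial (Fin (n + 1)) k)) {a : MvPolynomial (Fin (n + 1)) k}
    (h : cls J a = 0) : a ∈ J := by
  have h1 : cls J a = cls J 0 := by
    rw [h, cls, map_zero, map_zero]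
  simpa using cls_eq J h1

lemma not_hasPthPowerCoordinates (m s p : ℕ) [CharP k p] (hp0 : p ≠ 0) (hp2 : (2 : k) ≠ 0)
    (hs : ((s + 2 : ℕ) : k) = 0) :
    ¬ HasPthPowerCoordinates p
      (surf s (X 0) (X 1) (X 2) (X 3) : MvPolynomial (Fin (m + 4)) k) := by
  intro H
  have hirr := irreducible_surf (K := k) m s
  set G : MvPolynomial (Fin (m + 4)) k := surf s (X 0) (X 1) (X 2) (X 3) with hG
  obtain ⟨g, hg1, ⟨i0, hi0⟩, hg3⟩ := H G hirr dvd_rfl
  have hprime : (Ideal.span {G}).IsPrime :=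
    (Ideal.span_singleton_prime hirr.ne_zero).2 hirr.prime
  have hdom : IsDomain (MvPolynomial (Fin (m + 4)) k ⧸ Ideal.span {G}) :=
    Ideal.Quotient.isDomain _
  obtain ⟨d0, a0, b0, -, -, hb0, e0⟩ := hg1 0
  obtain ⟨d3, a3, b3, -, -, hb3, e3⟩ := hg1 3
  have hG0 : cls (Ideal.span {G}) (pderiv 0 G) ≠ 0 := by
    intro h
    have h1 := cls_eq_zero _ h
    rw [Ideal.mem_span_singleton, hG, pderiv_zero_surf m s hs, ← hG] at h1
    rcases hirr.prime.dvd_or_dvd h1 with h2 | h2
    · exact not_dvd_of_degree m s (by omega) (isHomogeneous_X k 1) (X_ne_zero _)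
        (hirr.prime.dvd_of_dvd_pow h2)
    · refine not_dvd_of_degree m s (d := s + 2) (by omega) ?_ ?_ h2
      · exact (isHomogeneous_X_pow 3 _).sub
          ((isHomogeneous_X_pow (R := k) (2 : Fin (m + 4)) (s + 1)).mul (isHomogeneous_X k 3))
      · intro h
        have h5 := congrArg (eval (fun i : Fin (m + 4) => if i = 3 then (1 : k) else 0)) h
        have n23 : (2 : Fin (m + 4)) ≠ 3 := fin_ne 2 3 (by omega) (by omega) (by omega)
        simp [n23] at h5
  have hg0 : g 0 ≠ 0 := by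
    intro h
    have h1 := hg3 0 i0
    rw [h, zero_pow hp0, zero_mul] at h1
    exact (mul_ne_zero (pow_ne_zero _ hi0) hG0) h1.symm
  have hb0' : cls (Ideal.span {G}) b0 ≠ 0 := fun h => hb0 (cls_eq_zero _ h)
  have hb3' : cls (Ideal.span {G}) b3 ≠ 0 := fun h => hb3 (cls_eq_zero _ h)
  have h1 := hg3 0 3
  have h2 : cls (Ideal.span {G}) ((a0 * b3) ^ p * pderiv 3 G) =
      cls (Ideal.span {G}) ((a3 * b0) ^ p * pderiv 0 G) := by
    rw [cls_mul, cls_pow, cls_mul, cls_mul, cls_pow, cls_mul, ← e0, ← e3, mul_pow, mul_pow,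
      mul_pow, mul_pow]
    linear_combination cls (Ideal.span {G}) b0 ^ p * cls (Ideal.span {G}) b3 ^ p * h1
  have h3 := cls_eq _ h2
  rw [Ideal.mem_span_singleton] at h3
  have h4 := key_pth_power m s p hp2 hs _ _ h3
  have h5 : cls (Ideal.span {G}) (a0 * b3) ≠ 0 := by
    rw [cls_mul, ← e0]
    exact mul_ne_zero (mul_ne_zero hg0 hb0') hb3'
  apply h5
  have h6 : Ideal.Quotient.mk (Ideal.span {G}) (a0 * b3) = 0 :=
    Ideal.Quotient.eq_zero_iff_mem.2 (Ideal.mem_span_singleton.2 h4)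
  rw [cls, h6, map_zero]

lemma curveMap_X (i : Fin (n + 1)) :
    curveMap k n (X i) = X 0 * X 1 ^ (i : ℕ) := by
  rw [curveMap, aeval_X]

lemma val_two (m : ℕ) : ((2 : Fin (m + 3 + 1)) : ℕ) = 2 :=
  Nat.mod_eq_of_lt (show 2 < m + 4 by omega)
lemma val_three (m : ℕ) : ((3 : Fin (m + 3 + 1)) : ℕ) = 3 :=
  Nat.mod_eq_of_lt (show 3 < m + 4 by omega)
lemma val_one' (m : ℕ) : ((1 : Fin (m + 3 + 1)) : ℕ) = 1 :=
  Nat.mod_eq_of_lt (show 1 < m + 4 by omega)
lemma val_zero' (m : ℕ) : ((0 : Fin (m + 3 + 1)) : ℕ) = 0 :=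
  Nat.mod_eq_of_lt (show 0 < m + 4 by omega)

lemma surf_mem_curveIdeal (m s : ℕ) :
    (surf s (X 0) (X 1) (X 2) (X 3) : MvPolynomial (Fin (m + 4)) k) ∈ curveIdeal k (m + 3) := by
  show (curveMap k (m + 3)).toRingHom _ = 0
  rw [map_surf]
  show surf s (curveMap k (m + 3) (X 0)) (curveMap k (m + 3) (X 1)) (curveMap k (m + 3) (X 2))
    (curveMap k (m + 3) (X 3)) = 0
  rw [curveMap_X, curveMap_X, curveMap_X, curveMap_X, val_zero', val_one', val_two, val_three, surf]
  ring

lemma curveMap_pderiv_zero (m s : ℕ) (hs : ((s + 2 : ℕ) : k) = 0) :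
    curveMap k (m + 3) (pderiv 0 (surf s (X 0) (X 1) (X 2) (X 3))) =
      X 0 ^ (2 * s + 3) * X 1 ^ (3 * s + 6) * (X 1 ^ (s + 1) - 1) := by
  have h := pderiv_zero_surf (K := k) m s hs
  rw [h, map_mul, map_sub, map_mul, map_pow, map_pow, map_pow, curveMap_X, curveMap_X, curveMap_X,
    val_one', val_two, val_three]
  ring

lemma curveMap_pderiv_three (m s : ℕ) (hs : ((s + 2 : ℕ) : k) = 0) :
    curveMap k (m + 3) (pderiv 3 (surf s (X 0) (X 1) (X 2) (X 3))) =
      - (X 0 ^ (2 * s + 3) * X 1 ^ (2 * s + 2) * (X 1 ^ (s + 1) - 1)) := by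
  have h := pderiv_three_surf (K := k) m s hs
  rw [h, map_neg, map_mul, map_sub, map_mul, map_pow, map_pow, map_pow, curveMap_X, curveMap_X,
    curveMap_X, val_zero', val_one', val_two]
  ring

lemma curveMap_pderiv_three_ne_zero (m s : ℕ) (hs : ((s + 2 : ℕ) : k) = 0) :
    curveMap k (m + 3) (pderiv 3 (surf s (X 0) (X 1) (X 2) (X 3))) ≠ 0 := by
  rw [curveMap_pderiv_three m s hs, neg_ne_zero]
  refine mul_ne_zero (mul_ne_zero (pow_ne_zero _ (X_ne_zero _)) (pow_ne_zero _ (X_ne_zero _))) ?_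
  intro h
  have h5 := congrArg (eval (fun _ : Fin 2 => (0 : k))) h
  simp at h5

lemma not_inseparableOn (m s p : ℕ) [CharP k p] (hp0 : p ≠ 0) (hp2 : (2 : k) ≠ 0)
    (hs : ((s + 2 : ℕ) : k) = 0) :
    ¬ InseparableOn p (surf s (X 0) (X 1) (X 2) (X 3) : MvPolynomial (Fin (m + 4)) k)
      (curveIdeal k (m + 3)) := by
  intro H
  set G : MvPolynomial (Fin (m + 4)) k := surf s (X 0) (X 1) (X 2) (X 3) with hG
  have hne : curveMap k (m + 3) (pderiv 3 G) ≠ 0 := curveMap_pderiv_three_ne_zero m s hs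
  obtain ⟨g, ⟨d, a, b, -, -, hb, e⟩, hg⟩ := H 0 3 hne
  have h2 : cls (curveIdeal k (m + 3)) (a ^ p * pderiv 3 G) =
      cls (curveIdeal k (m + 3)) (b ^ p * pderiv 0 G) := by
    rw [cls_mul, cls_pow, cls_mul, cls_pow, ← e, mul_pow]
    linear_combination cls (curveIdeal k (m + 3)) b ^ p * hg
  have h3 : curveMap k (m + 3) (a ^ p * pderiv 3 G - b ^ p * pderiv 0 G) = 0 := cls_eq _ h2
  rw [map_sub, map_mul, map_mul, map_pow, map_pow, sub_eq_zero] at h3
  have h4 : curveMap k (m + 3) (pderiv 0 G) =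
      - (X 1 ^ (s + 4)) * curveMap k (m + 3) (pderiv 3 G) := by
    rw [hG, curveMap_pderiv_zero m s hs, curveMap_pderiv_three m s hs]
    ring
  rw [h4, ← mul_assoc] at h3
  have h5 := mul_right_cancel₀ hne h3
  have h6 := congrArg (pderiv 1) h5
  have hs' : ((s + 4 : ℕ) : MvPolynomial (Fin 2) k) = 2 := by
    have : ((s + 4 : ℕ) : k) = 2 := by
      push_cast at hs ⊢
      linear_combination hs
    rw [← map_natCast (C : k →+* MvPolynomial (Fin 2) k), this, map_ofNat]
  rw [Derivation.leibniz_pow, nsmul_eq_mul, CharP.cast_eq_zero, zero_mul, Derivation.leibniz,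
    Derivation.leibniz_pow, nsmul_eq_mul, CharP.cast_eq_zero, zero_mul, smul_zero, add_zero,
    map_neg, Derivation.leibniz_pow, nsmul_eq_mul, hs', pderiv_X_self, smul_eq_mul, smul_eq_mul,
    mul_one] at h6
  have h7 : curveMap k (m + 3) b ^ p * (C 2 * X 1 ^ (s + 4 - 1)) = 0 := by
    have hC : (C 2 : MvPolynomial (Fin 2) k) = 2 := map_ofNat C 2
    rw [hC]
    linear_combination h6
  rcases mul_eq_zero.1 h7 with h8 | h8
  · exact hb (pow_eq_zero_iff hp0 |>.1 h8)
  · rcases mul_eq_zero.1 h8 with h9 | h9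
    · exact hp2 (C_eq_zero.1 h9)
    · exact pow_ne_zero _ (X_ne_zero _) h9

/-- For every prime `p`, every `q = p ^ h` and every `n ≥ 3` with `p > n` there is a (geometrically
irreducible, of degree `2 q`) `𝔽_q`-Frobenius nonclassical hypersurface `F = 0` in `ℙ^n` whose Gauss
map does not admit powers of `p` as coordinate functions, and which contains an irreducible curve
defined over `𝔽_q` (not in the indeterminacy locus) on which the Gauss map is separable. -/
theorem result (p h n : ℕ) [Fact p.Prime] (hh : h ≠ 0) (hn : 3 ≤ n) (hp : n < p) :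
    ∃ F : MvPolynomial (Fin (n + 1)) (GaloisField p h),
      IsFrobeniusNonclassical p h F ∧ Irreducible (toK p h F) ∧
      F.IsHomogeneous (2 * p ^ h) ∧
      ¬ HasPthPowerCoordinates p (toK p h F) ∧
      ∃ J : Ideal (MvPolynomial (Fin (n + 1)) (Kbar p h)),
        IsIrreducibleCurveOver p h J ∧ toK p h F ∈ J ∧ (∃ i, pderiv i (toK p h F) ∉ J) ∧
        ¬ InseparableOn p (toK p h F) J := by
  obtain ⟨m, rfl⟩ : ∃ m, n = m + 3 := ⟨n - 3, by omega⟩
  have hpp : p.Prime := Fact.out
  have hq : p ≤ p ^ h := by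
    calc p = p ^ 1 := (pow_one p).symm
      _ ≤ p ^ h := Nat.pow_le_pow_right hpp.pos (Nat.one_le_iff_ne_zero.2 hh)
  obtain ⟨s, hs⟩ : ∃ s, p ^ h = s + 2 := ⟨p ^ h - 2, by omega⟩
  have hchar : CharP (Kbar p h) p :=
    charP_of_injective_algebraMap (algebraMap (GaloisField p h) (Kbar p h)).injective p
  have hs0 : ((s + 2 : ℕ) : Kbar p h) = 0 := by
    rw [← hs, Nat.cast_pow, CharP.cast_eq_zero, zero_pow hh]
  have hp2 : (2 : Kbar p h) ≠ 0 := by
    intro h2
    have h3 : ((2 : ℕ) : Kbar p h) = 0 := by exact_mod_cast h2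
    rw [CharP.cast_eq_zero_iff (Kbar p h) p] at h3
    have := Nat.le_of_dvd two_pos h3
    omega
  have hmap : toK p h (surf s (X 0) (X 1) (X 2) (X 3) :
      MvPolynomial (Fin (m + 3 + 1)) (GaloisField p h)) = surf s (X 0) (X 1) (X 2) (X 3) := by
    rw [map_surf, map_X, map_X, map_X, map_X]
  have hirr := irreducible_surf (K := Kbar p h) m s
  refine ⟨surf s (X 0) (X 1) (X 2) (X 3), ⟨⟨2 * (s + 2), by omega, isHomogeneous_surf m s⟩, ?_, ?_⟩,
    ?_, ?_, ?_, curveIdeal (Kbar p h) (m + 3), ⟨?_, ?_, ?_, ?_⟩, ?_, ?_, ?_⟩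
  · rw [hmap]
    exact hirr.squarefree
  · rw [hmap, hs, sum_pderiv_eq]
    have hs' : ((s + 2 : ℕ) : MvPolynomial (Fin (m + 3 + 1)) (Kbar p h)) = 0 := by
      rw [← map_natCast (C : Kbar p h →+* MvPolynomial (Fin (m + 3 + 1)) (Kbar p h)), hs0,
        map_zero]
    rw [deriv_surf _ s hs' _ _ _ _ (mkDerivation_X _ _ _) (mkDerivation_X _ _ _)
      (mkDerivation_X _ _ _) (mkDerivation_X _ _ _)]
    exact dvd_mul_left _ _
  · rw [hmap]
    exact hirr
  · rw [hs]
    exact isHomogeneous_surf m s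
  · rw [hmap]
    exact not_hasPthPowerCoordinates m s p hpp.ne_zero hp2 hs0
  · exact RingHom.ker_isPrime _
  · exact fun f hf d => curveIdeal_isHomogeneous _ _ f hf d
  · exact trdeg_curve _ _ (by omega)
  · exact ⟨curveIdeal (GaloisField p h) (m + 3), (map_curveIdeal _ _ _).symm⟩
  · rw [hmap]
    exact surf_mem_curveIdeal m s
  · rw [hmap]
    exact ⟨3, curveMap_pderiv_three_ne_zero m s hs0⟩
  · rw [hmap]
    exact not_inseparableOn m s p hpp.ne_zero hp2 hs0

end Statement

end Pool.Agent.Results.MP_291982_ag.NotPthPowers
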